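import Pool.Agent.H83.LS.Targets4
import Pool.Agent.H83.LS.Basic

/-!
Local smoothing: from dyadic blocks to the whole frequency space (core of FIN and FING).
-/

set_option autoImplicit false

namespace Pool.Agent.H73.LS

open MeasureTheory Set Filter FourierTransform Pool.Agent.H83.LS
open scoped ENNReal NNReal SchwartzMap

/-! ### Minkowski for series -/

section Mink

variable {α : Type*} [MeasurableSpace α] {μ : Measure α}

lemma mink_fin (p : ℝ) (hp : 1 ≤ p) (f : ℕ → α → ℝ≥0∞) (hf : ∀ j, Measurable (f j)) (J : ℕ) :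
    (∫⁻ a, (∑ j ∈ Finset.range J, f j a) ^ p ∂μ) ^ (1 / p) ≤
      ∑ j ∈ Finset.range J, (∫⁻ a, f j a ^ p ∂μ) ^ (1 / p) := by
  have hp0 : 0 < p := lt_of_lt_of_le one_pos hp
  induction J with
  | zero =>
    simp [ENNReal.zero_rpow_of_pos hp0, hp0]
  | succ J ih =>
    have h := ENNReal.lintegral_Lp_add_le (μ := μ) (p := p)
      (f := fun a => ∑ j ∈ Finset.range J, f j a) (g := f J)
      (Finset.measurable_sum _ fun j _ => hf j).aemeasurable (hf J).aemeasurable hp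
    rw [Finset.sum_range_succ]
    simp_rw [Finset.sum_range_succ]
    exact h.trans (add_le_add ih le_rfl)

lemma rpow_iSup' {ι : Type*} (p : ℝ) (hp : 0 < p) (f : ι → ℝ≥0∞) :
    (⨆ i, f i) ^ p = ⨆ i, f i ^ p := by
  exact (ENNReal.orderIsoRpow p hp).map_iSup f

lemma mink_tsum (p : ℝ) (hp : 1 ≤ p) (f : ℕ → α → ℝ≥0∞) (hf : ∀ j, Measurable (f j)) :
    (∫⁻ a, (∑' j, f j a) ^ p ∂μ) ^ (1 / p) ≤ ∑' j, (∫⁻ a, f j a ^ p ∂μ) ^ (1 / p) := by
  have hp0 : 0 < p := lt_of_lt_of_le one_pos hp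
  have h1 : ∫⁻ a, (∑' j, f j a) ^ p ∂μ = ⨆ J : ℕ, ∫⁻ a, (∑ j ∈ Finset.range J, f j a) ^ p ∂μ := by
    rw [← lintegral_iSup]
    · refine lintegral_congr fun a => ?_
      rw [ENNReal.tsum_eq_iSup_nat, rpow_iSup' p hp0]
    · intro J
      exact (Finset.measurable_sum _ fun j _ => hf j).pow_const p
    · intro J J' hJ a
      exact ENNReal.rpow_le_rpow (Finset.sum_le_sum_of_subset (Finset.range_mono hJ)) hp0.le
  rw [h1, rpow_iSup' _ (by positivity)]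
  refine iSup_le fun J => ?_
  exact (mink_fin p hp f hf J).trans (ENNReal.sum_le_tsum _)

end Mink

/-! ### cutoffs -/

lemma continuous_eta0 : Continuous eta0 := by
  unfold eta0
  exact Real.smoothTransition.continuous.comp (by fun_prop)

lemma eta0_nonneg (s : ℝ) : 0 ≤ eta0 s := Real.smoothTransition.nonneg _

lemma eta0_le_one (s : ℝ) : eta0 s ≤ 1 := Real.smoothTransition.le_one _

lemma eta0_abs (s : ℝ) : |eta0 s| ≤ 1 := by
  rw [abs_of_nonneg (eta0_nonneg s)]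
  exact eta0_le_one s

lemma eta0_one {s : ℝ} (h : s ≤ 1) : eta0 s = 1 :=
  Real.smoothTransition.one_of_one_le (by linarith)

lemma eta0_zero {s : ℝ} (h : 2 ≤ s) : eta0 s = 0 :=
  Real.smoothTransition.zero_of_nonpos (by linarith)

lemma chi_dyadic (s : ℝ) (j : ℕ) : chi (s / 2 ^ (j + 1)) = eta0 (s / 2 ^ (j + 1)) - eta0 (s / 2 ^ j) := by
  unfold chi
  congr 2
  rw [pow_succ]
  field_simp

lemma continuous_chi : Continuous chi := by
  unfold chi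
  exact continuous_eta0.sub (continuous_eta0.comp (by fun_prop))

/-! ### multipliers of Schwartz functions -/

section Mult

variable {d : ℕ}

lemma measurable_F (u : 𝓢(EE d, ℂ)) : Measurable (𝓕 (u : EE d → ℂ)) := by
  rw [← SchwartzMap.fourier_coe]
  exact (𝓕 u : 𝓢(EE d, ℂ)).continuous.measurable

lemma integrable_F (u : 𝓢(EE d, ℂ)) : Integrable (𝓕 (u : EE d → ℂ)) := by
  rw [← SchwartzMap.fourier_coe]
  exact (𝓕 u : 𝓢(EE d, ℂ)).integrable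

/-- the general multiplier integral -/
noncomputable def MI (a : EE d → ℝ) (G : EE d → ℂ) (x : EE d) : ℂ :=
  ∫ ξ : EE d, e (inner ℝ x ξ) * (((a ξ : ℝ) : ℂ) * G ξ)

lemma integrable_MI (a : EE d → ℝ) (G : EE d → ℂ) (x : EE d) (M : ℝ) (ha : Measurable a)
    (hM : ∀ ξ, |a ξ| ≤ M) (hG : Integrable G) :
    Integrable (fun ξ : EE d => e (inner ℝ x ξ) * (((a ξ : ℝ) : ℂ) * G ξ)) := by
  refine Integrable.mono' (hG.norm.const_mul M) ?_ (Eventually.of_forall fun ξ => ?_)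
  · refine AEStronglyMeasurable.mul ?_ (AEStronglyMeasurable.mul ?_ hG.1)
    · exact (continuous_e.comp (by fun_prop)).aestronglyMeasurable
    · exact (Complex.measurable_ofReal.comp ha).aestronglyMeasurable
  · rw [norm_mul, norm_e, one_mul, norm_mul, Complex.norm_real, Real.norm_eq_abs]
    exact mul_le_mul_of_nonneg_right (hM ξ) (norm_nonneg _)

lemma measurable_MI {Y : Type*} [MeasurableSpace Y] (a : Y → EE d → ℝ)
    (ha : Measurable (fun q : Y × EE d => a q.1 q.2)) (G : EE d → ℂ) (hG : Measurable G) :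
    Measurable (fun q : Y × EE d => MI (a q.1) G q.2) := by
  unfold MI
  have h1 : Measurable (fun z : (Y × EE d) × EE d =>
      e (inner ℝ z.1.2 z.2) * (((a z.1.1 z.2 : ℝ) : ℂ) * G z.2)) := by
    refine Measurable.mul ?_ (Measurable.mul ?_ ?_)
    · exact measurable_e.comp (by fun_prop)
    · exact Complex.measurable_ofReal.comp
        (ha.comp ((measurable_fst.comp measurable_fst).prodMk measurable_snd))
    · exact hG.comp measurable_snd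
  exact (h1.stronglyMeasurable.integral_prod_right').measurable

/-- the solution operators in the form of multiplier integrals -/
noncomputable def TT (c : ℝ → ℝ → ℝ) (u : EE d → ℂ) (t : ℝ) (x : EE d) : ℂ :=
  𝓕⁻ (fun ξ : EE d => ((c t ‖ξ‖ : ℝ) : ℂ) * 𝓕 u ξ) x

lemma fourierInv_MI (a : EE d → ℝ) (G : EE d → ℂ) (x : EE d) :
    𝓕⁻ (fun ξ : EE d => ((a ξ : ℝ) : ℂ) * G ξ) x = MI a G x := by
  rw [Real.fourierInv_eq']
  unfold MI
  refine integral_congr_ae (Eventually.of_forall fun ξ => ?_)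
  unfold e
  beta_reduce
  rw [real_inner_comm x ξ, smul_eq_mul]

lemma TT_eq (c : ℝ → ℝ → ℝ) (u : EE d → ℂ) (t : ℝ) (x : EE d) :
    TT c u t x = MI (fun ξ => c t ‖ξ‖) (𝓕 u) x := fourierInv_MI _ _ _

lemma MM_eq (a : EE d → ℝ) (u : EE d → ℂ) (x : EE d) :
    MM (fun ξ => ((a ξ : ℝ) : ℂ)) u x = MI a (𝓕 u) x := rfl

/-- pointwise decomposition -/
lemma enorm_TT_le (c : ℝ → ℝ → ℝ) (Mb : ℝ → ℝ) (hc : Measurable (fun q : ℝ × ℝ => c q.1 q.2))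
    (hb : ∀ t s, |c t s| ≤ Mb t) (G : EE d → ℂ) (hG : Integrable G) (t : ℝ) (x : EE d) :
    ‖MI (fun ξ => c t ‖ξ‖) G x‖ₑ ≤ ‖MI (fun ξ : EE d => eta0 ‖ξ‖ * c t ‖ξ‖) G x‖ₑ +
      ∑' j : ℕ, ‖MI (fun ξ : EE d => c t ‖ξ‖ * chi (‖ξ‖ / 2 ^ (j + 1))) G x‖ₑ := by
  have hct : Measurable (fun s : ℝ => c t s) := hc.comp (measurable_const.prodMk measurable_id)
  have hMb : 0 ≤ Mb t := (abs_nonneg _).trans (hb t 0)
  have hcn : Measurable (fun ξ : EE d => c t ‖ξ‖) := hct.comp measurable_norm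
  have hbd : ∀ (J : ℕ) (ξ : EE d), |eta0 (‖ξ‖ / 2 ^ J) * c t ‖ξ‖| ≤ Mb t := by
    intro J ξ
    rw [abs_mul]
    calc |eta0 (‖ξ‖ / 2 ^ J)| * |c t ‖ξ‖| ≤ 1 * Mb t :=
          mul_le_mul (eta0_abs _) (hb _ _) (abs_nonneg _) zero_le_one
      _ = Mb t := one_mul _
  have hme : ∀ J : ℕ, Measurable (fun ξ : EE d => eta0 (‖ξ‖ / 2 ^ J) * c t ‖ξ‖) := fun J =>
    (continuous_eta0.comp (by fun_prop)).measurable.mul hcn
  have hint : ∀ J : ℕ, Integrable (fun ξ : EE d => e (inner ℝ x ξ) *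
      (((eta0 (‖ξ‖ / 2 ^ J) * c t ‖ξ‖ : ℝ) : ℂ) * G ξ)) := fun J =>
    integrable_MI _ G x (Mb t) (hme J) (hbd J) hG
  have hsum : ∀ J : ℕ, MI (fun ξ : EE d => eta0 ‖ξ‖ * c t ‖ξ‖) G x +
      ∑ j ∈ Finset.range J, MI (fun ξ : EE d => c t ‖ξ‖ * chi (‖ξ‖ / 2 ^ (j + 1))) G x =
      MI (fun ξ : EE d => eta0 (‖ξ‖ / 2 ^ J) * c t ‖ξ‖) G x := by
    intro J
    induction J with
    | zero => simp
    | succ J ih =>
      rw [Finset.sum_range_succ, ← add_assoc, ih]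
      have h1 : MI (fun ξ : EE d => c t ‖ξ‖ * chi (‖ξ‖ / 2 ^ (J + 1))) G x =
          MI (fun ξ : EE d => eta0 (‖ξ‖ / 2 ^ (J + 1)) * c t ‖ξ‖) G x -
            MI (fun ξ : EE d => eta0 (‖ξ‖ / 2 ^ J) * c t ‖ξ‖) G x := by
        unfold MI
        rw [← integral_sub (hint (J + 1)) (hint J)]
        refine integral_congr_ae (Eventually.of_forall fun ξ => ?_)
        beta_reduce
        rw [chi_dyadic]
        push_cast
        ring
      rw [h1]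
      ring
  have hlim : Tendsto (fun J : ℕ => MI (fun ξ : EE d => eta0 (‖ξ‖ / 2 ^ J) * c t ‖ξ‖) G x)
      atTop (nhds (MI (fun ξ => c t ‖ξ‖) G x)) := by
    unfold MI
    refine tendsto_integral_of_dominated_convergence (fun ξ => Mb t * ‖G ξ‖)
      (fun J => (hint J).1) (hG.norm.const_mul _) (fun J => Eventually.of_forall fun ξ => ?_)
      (Eventually.of_forall fun ξ => ?_)
    · rw [norm_mul, norm_e, one_mul, norm_mul, Complex.norm_real, Real.norm_eq_abs]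
      exact mul_le_mul_of_nonneg_right (hbd J ξ) (norm_nonneg _)
    · refine tendsto_const_nhds.congr' ?_
      obtain ⟨J₀, hJ₀⟩ := pow_unbounded_of_one_lt ‖ξ‖ (one_lt_two)
      filter_upwards [eventually_ge_atTop J₀] with J hJ
      have h2 : ‖ξ‖ / 2 ^ J ≤ 1 := by
        rw [div_le_one (by positivity)]
        exact hJ₀.le.trans (pow_le_pow_right₀ one_le_two hJ)
      rw [eta0_one h2, one_mul]
  refine le_of_tendsto (hlim.enorm) (Eventually.of_forall fun J => ?_)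
  rw [← hsum J]
  refine (enorm_add_le _ _).trans (add_le_add le_rfl ?_)
  refine (enorm_sum_le _ _).trans ?_
  exact ENNReal.sum_le_tsum _

/-! ### Bessel potentials -/

/-- the weight -/
noncomputable def bw (s : ℝ) (ξ : EE d) : ℝ := (1 + 4 * Real.pi ^ 2 * ‖ξ‖ ^ 2) ^ (s / 2)

lemma bw_tg (s : ℝ) : (fun ξ : EE d => ((bw s ξ : ℝ) : ℂ)).HasTemperateGrowth := by
  have h1 := Function.hasTemperateGrowth_one_add_norm_sq_rpow (EE d) (s / 2)
  have h2 : (fun ξ : EE d => (2 * Real.pi) • ξ).HasTemperateGrowth := by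
    fun_prop
  have h4 := h1.comp h2
  have h3 : (fun ξ : EE d => bw s ξ) =
      ((fun x : EE d => (1 + ‖x‖ ^ 2) ^ (s / 2)) ∘ fun ξ => (2 * Real.pi) • ξ) := by
    funext ξ
    have h5 : ‖(2 * Real.pi) • ξ‖ ^ 2 = 4 * Real.pi ^ 2 * ‖ξ‖ ^ 2 := by
      rw [norm_smul, Real.norm_eq_abs, mul_pow, sq_abs]
      ring
    unfold bw
    simp only [Function.comp_apply]
    rw [h5]
  rw [← h3] at h4
  exact Function.Complex.hasTemperateGrowth_ofReal.comp h4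

lemma bw_pos (s : ℝ) (ξ : EE d) : 0 < bw s ξ := by
  unfold bw
  positivity

lemma continuous_bw (s : ℝ) : Continuous (fun ξ : EE d => bw s ξ) := by
  unfold bw
  refine Continuous.rpow_const (by fun_prop) fun ξ => Or.inl ?_
  positivity

lemma bw_mul (s : ℝ) (ξ : EE d) : bw (-s) ξ * bw s ξ = 1 := by
  unfold bw
  rw [← Real.rpow_add (by positivity)]
  rw [show -s / 2 + s / 2 = 0 by ring, Real.rpow_zero]

/-- Bessel potentials of Schwartz functions are Schwartz functions -/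
lemma exists_bes (r : ℝ) (u : 𝓢(EE d, ℂ)) : ∃ g : 𝓢(EE d, ℂ), (∀ x, besS r u x = g x) ∧
    ∀ ξ, 𝓕 (g : EE d → ℂ) ξ = ((bw r ξ : ℝ) : ℂ) * 𝓕 (u : EE d → ℂ) ξ := by
  let h : 𝓢(EE d, ℂ) := SchwartzMap.smulLeftCLM ℂ (fun ξ : EE d => ((bw r ξ : ℝ) : ℂ)) (𝓕 u)
  have hh : ∀ ξ, h ξ = ((bw r ξ : ℝ) : ℂ) * 𝓕 (u : EE d → ℂ) ξ := by
    intro ξ
    change SchwartzMap.smulLeftCLM ℂ (fun ξ : EE d => ((bw r ξ : ℝ) : ℂ)) (𝓕 u) ξ = _
    rw [SchwartzMap.smulLeftCLM_apply_apply (bw_tg r), smul_eq_mul]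
    rfl
  refine ⟨𝓕⁻ h, fun x => ?_, fun ξ => ?_⟩
  · rw [SchwartzMap.fourierInv_coe]
    unfold besS
    have h5 : (fun ξ : EE d => (((1 + 4 * Real.pi ^ 2 * ‖ξ‖ ^ 2) ^ (r / 2) : ℝ) : ℂ) *
        𝓕 (u : EE d → ℂ) ξ) = ⇑h := by
      funext ξ
      rw [hh]
      rfl
    rw [h5]
  · rw [← SchwartzMap.fourier_coe, FourierTransform.fourier_fourierInv_eq, hh]

/-! ### bounded multipliers as convolutions -/

lemma ple_bdd (hPLE : T_PLE) (m : EE d → ℂ) (f : EE d → ℂ) (D : ℝ) (hD : 0 < D)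
    (hm : Measurable m) (hmD : ∀ ξ, ‖m ξ‖ ≤ D) (hmi : Integrable m) (hf : Integrable f)
    (hA : ∃ A : ℝ, ∀ x, ‖f x‖ ≤ A) (hfm : Measurable f) (x : EE d) :
    MM m f x = ∫ y, MK m (x - y) * f y := by
  have hD' : (D : ℂ) ≠ 0 := by exact_mod_cast hD.ne'
  have h1 := (hPLE d (fun ξ => (D : ℂ)⁻¹ * m ξ) f (measurable_const.mul hm) (fun ξ => by
    rw [norm_mul, norm_inv, Complex.norm_real, Real.norm_eq_abs, abs_of_pos hD,
      inv_mul_le_one₀ hD]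
    exact hmD ξ) (hmi.const_mul _) hf hA hfm).1 x
  have h2 : MM (fun ξ => (D : ℂ)⁻¹ * m ξ) f x = (D : ℂ)⁻¹ * MM m f x := by
    unfold MM
    rw [← integral_const_mul]
    refine integral_congr_ae (Eventually.of_forall fun ξ => ?_)
    beta_reduce
    ring
  have h3 : ∀ z, MK (fun ξ => (D : ℂ)⁻¹ * m ξ) z = (D : ℂ)⁻¹ * MK m z := by
    intro z
    unfold MK
    rw [← integral_const_mul]
    refine integral_congr_ae (Eventually.of_forall fun ξ => ?_)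
    beta_reduce
    ring
  rw [h2] at h1
  have h4 : ∫ y, MK (fun ξ => (D : ℂ)⁻¹ * m ξ) (x - y) * f y =
      (D : ℂ)⁻¹ * ∫ y, MK m (x - y) * f y := by
    rw [← integral_const_mul]
    refine integral_congr_ae (Eventually.of_forall fun y => ?_)
    beta_reduce
    rw [h3]
    ring
  rw [h4] at h1
  exact mul_left_cancel₀ (inv_ne_zero hD') h1

lemma measurable_MK (m : EE d → ℂ) (hm : Measurable m) : Measurable (MK m) := by
  unfold MK
  have h1 : Measurable (fun z : EE d × EE d => e (inner ℝ z.1 z.2) * m z.2) := by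
    refine Measurable.mul ?_ (hm.comp measurable_snd)
    exact measurable_e.comp (by fun_prop)
  exact (h1.stronglyMeasurable.integral_prod_right').measurable

/-- Young for one multiplier -/
lemma young_MM (hPLE : T_PLE) (hYG : T_YG) (p : ℝ) (hp : 1 ≤ p) (m : EE d → ℂ) (f : EE d → ℂ)
    (D : ℝ) (hD : 0 < D) (hm : Measurable m) (hmD : ∀ ξ, ‖m ξ‖ ≤ D) (hmi : Integrable m)
    (hf : Integrable f) (hA : ∃ A : ℝ, ∀ x, ‖f x‖ ≤ A) (hfm : Measurable f) :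
    ∫⁻ x, ‖MM m f x‖ₑ ^ p ≤ (∫⁻ x, ‖MK m x‖ₑ) ^ p * ∫⁻ x, ‖f x‖ₑ ^ p := by
  have h1 := hYG (EE d) volume (fun x => ‖MK m x‖ₑ) (fun x => ‖f x‖ₑ) p
    (measurable_MK m hm).enorm hfm.enorm hp
  refine le_trans (lintegral_mono fun x => ?_) h1
  refine ENNReal.rpow_le_rpow ?_ (by linarith)
  rw [ple_bdd hPLE m f D hD hm hmD hmi hf hA hfm x]
  refine (enorm_integral_le_lintegral_enorm _).trans ?_
  refine lintegral_mono fun y => ?_
  rw [enorm_mul]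

/-- the low frequencies -/
lemma low_part (hPLE : T_PLE) (hYG : T_YG) (p r : ℝ) (hp : 1 ≤ p) (C₁ : ℝ≥0) (c : ℝ → ℝ)
    (M : ℝ) (hc : Measurable c) (hb : ∀ s, |c s| ≤ M)
    (hK : ∫⁻ x : EE d, ‖MK (fun ξ : EE d => ((eta0 ‖ξ‖ * c ‖ξ‖ *
      (1 + 4 * Real.pi ^ 2 * ‖ξ‖ ^ 2) ^ (-r / 2) : ℝ) : ℂ)) x‖ₑ ≤ C₁) (u : 𝓢(EE d, ℂ)) :
    ∫⁻ x, ‖MI (fun ξ : EE d => eta0 ‖ξ‖ * c ‖ξ‖) (𝓕 (u : EE d → ℂ)) x‖ₑ ^ p ≤
      (C₁ : ℝ≥0∞) ^ p * ∫⁻ x, ‖besS r u x‖ₑ ^ p := by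
  obtain ⟨g, hg1, hg2⟩ := exists_bes r u
  have hM : 0 ≤ M := (abs_nonneg _).trans (hb 0)
  -- bound of the weight
  obtain ⟨W, hW⟩ := (isCompact_closedBall (0 : EE d) 2).exists_bound_of_continuousOn
    (continuous_bw (d := d) (-r)).continuousOn
  have hW0 : 0 ≤ W := (norm_nonneg _).trans (hW 0 (by simp))
  let m : EE d → ℂ := fun ξ => ((eta0 ‖ξ‖ * c ‖ξ‖ * bw (-r) ξ : ℝ) : ℂ)
  have hmm : Measurable m := by
    refine Complex.measurable_ofReal.comp (Measurable.mul (Measurable.mul ?_ ?_) ?_)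
    · exact (continuous_eta0.comp continuous_norm).measurable
    · exact hc.comp measurable_norm
    · exact (continuous_bw (-r)).measurable
  have hmD : ∀ ξ, ‖m ξ‖ ≤ M * W + 1 := by
    intro ξ
    change ‖((eta0 ‖ξ‖ * c ‖ξ‖ * bw (-r) ξ : ℝ) : ℂ)‖ ≤ M * W + 1
    rw [Complex.norm_real, Real.norm_eq_abs, abs_mul, abs_mul]
    by_cases h : ‖ξ‖ ≤ 2
    · have h1 := hW ξ (by simpa using h)
      rw [Real.norm_eq_abs] at h1
      calc |eta0 ‖ξ‖| * |c ‖ξ‖| * |bw (-r) ξ| ≤ 1 * M * W := by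
            refine mul_le_mul (mul_le_mul (eta0_abs _) (hb _) (abs_nonneg _) zero_le_one) h1
              (abs_nonneg _) (by positivity)
        _ ≤ M * W + 1 := by linarith
    · rw [eta0_zero (by linarith), abs_zero, zero_mul, zero_mul]
      positivity
  have hmi : Integrable m := by
    have h1 : IntegrableOn m (Metric.closedBall 0 2) :=
      Measure.integrableOn_of_bounded (measure_closedBall_lt_top.ne) hmm.aestronglyMeasurable
        (M := M * W + 1) (Eventually.of_forall fun ξ => hmD ξ)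
    refine h1.integrable_of_forall_notMem_eq_zero fun ξ hξ => ?_
    have h2 : 2 < ‖ξ‖ := by simpa using hξ
    change ((eta0 ‖ξ‖ * c ‖ξ‖ * bw (-r) ξ : ℝ) : ℂ) = 0
    rw [eta0_zero h2.le, zero_mul, zero_mul, Complex.ofReal_zero]
  have h1 := young_MM hPLE hYG p hp m g (M * W + 1) (by positivity) hmm hmD hmi g.integrable
    ⟨_, fun x => (SchwartzMap.norm_le_seminorm ℝ g x)⟩ g.continuous.measurable
  have h2 : ∀ x, MM m g x = MI (fun ξ : EE d => eta0 ‖ξ‖ * c ‖ξ‖) (𝓕 (u : EE d → ℂ)) x := by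
    intro x
    unfold MM MI
    refine integral_congr_ae (Eventually.of_forall fun ξ => ?_)
    beta_reduce
    rw [hg2]
    have h3 : m ξ * (((bw r ξ : ℝ) : ℂ) * 𝓕 (u : EE d → ℂ) ξ) =
        ((eta0 ‖ξ‖ * c ‖ξ‖ * (bw (-r) ξ * bw r ξ) : ℝ) : ℂ) * 𝓕 (u : EE d → ℂ) ξ := by
      change ((eta0 ‖ξ‖ * c ‖ξ‖ * bw (-r) ξ : ℝ) : ℂ) * (((bw r ξ : ℝ) : ℂ) * _) = _
      push_cast
      ring
    rw [h3, bw_mul, mul_one]
  simp_rw [h2] at h1
  refine h1.trans ?_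
  simp_rw [hg1]
  refine mul_le_mul' (ENNReal.rpow_le_rpow hK (by linarith)) le_rfl

end Mult

/-! ### the core theorem -/

/-- the sum of the geometric series -/
lemma geo_lt_top (δ : ℝ) (hδ : 0 < δ) :
    ∑' j : ℕ, ENNReal.ofReal (((2 : ℝ) ^ (j + 1)) ^ (-δ)) < ⊤ := by
  have h0 : (0 : ℝ) < 2 ^ (-δ) := by positivity
  have h1 : (2 : ℝ) ^ (-δ) < 1 := Real.rpow_lt_one_of_one_lt_of_neg one_lt_two (by linarith)
  have h2 : ∀ j : ℕ, ((2 : ℝ) ^ (j + 1)) ^ (-δ) = ((2 : ℝ) ^ (-δ)) ^ (j + 1) := by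
    intro j
    rw [← Real.rpow_natCast, ← Real.rpow_natCast, ← Real.rpow_mul (by norm_num),
      ← Real.rpow_mul (by norm_num), mul_comm]
  have h3 : Summable (fun j : ℕ => ((2 : ℝ) ^ (j + 1)) ^ (-δ)) := by
    simp_rw [h2]
    exact (summable_nat_add_iff 1).2 (summable_geometric_of_lt_one h0.le h1)
  rw [← ENNReal.ofReal_tsum_of_nonneg (fun j => by positivity) h3]
  exact ENNReal.ofReal_lt_top

lemma lp_scale (p : ℝ) (hp : 0 < p) (C : ℝ≥0∞) (a : ℝ) (ha : 0 ≤ a) (B : ℝ≥0∞) :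
    (C * ENNReal.ofReal a * B ^ p) ^ (1 / p) =
      C ^ (1 / p) * ENNReal.ofReal (a ^ (1 / p)) * B := by
  rw [ENNReal.mul_rpow_of_nonneg _ _ (by positivity), ENNReal.mul_rpow_of_nonneg _ _ (by positivity),
    ENNReal.ofReal_rpow_of_nonneg ha (by positivity), ← ENNReal.rpow_mul, mul_one_div_cancel hp.ne',
    ENNReal.rpow_one]

/-- from dyadic blocks to the whole frequency space -/
theorem core (hPLE : T_PLE) (hYG : T_YG) (p δ : ℝ) (hp : 1 ≤ p) (hδ : 0 < δ) (C₁ C₂ : ℝ≥0) :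
    ∃ C : ℝ≥0, ∀ (d : ℕ) (r : ℝ) (c : ℝ → ℝ → ℝ) (Mb : ℝ → ℝ),
    Measurable (fun q : ℝ × ℝ => c q.1 q.2) → (∀ t s, |c t s| ≤ Mb t) →
    (∀ t ∈ Icc (1 : ℝ) 2, ∫⁻ x : EE d, ‖MK (fun ξ : EE d => ((eta0 ‖ξ‖ * c t ‖ξ‖ *
      (1 + 4 * Real.pi ^ 2 * ‖ξ‖ ^ 2) ^ (-r / 2) : ℝ) : ℂ)) x‖ₑ ≤ C₁) →
    ∀ (u : 𝓢(EE d, ℂ)) (B : ℝ≥0∞), ∫⁻ x, ‖besS r u x‖ₑ ^ p ≤ B ^ p →
    (∀ j : ℕ, ∫⁻ t in Icc (1 : ℝ) 2, ∫⁻ x, ‖MM (fun ξ => ((c t ‖ξ‖ *
      chi (‖ξ‖ / 2 ^ (j + 1)) : ℝ) : ℂ)) u x‖ₑ ^ p ≤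
      C₂ * ENNReal.ofReal (((2 : ℝ) ^ (j + 1)) ^ (-δ)) * B ^ p) →
    Measurable (fun q : ℝ × EE d => TT c u q.1 q.2) ∧
    (∫⁻ q : ℝ × EE d, ‖TT c u q.1 q.2‖ₑ ^ p
      ∂(((volume : Measure ℝ).restrict (Icc 1 2)).prod volume)) ^ (1 / p) ≤ C * B := by
  have hp0 : 0 < p := lt_of_lt_of_le one_pos hp
  have hS := geo_lt_top (δ / p) (by positivity)
  obtain ⟨S, hS'⟩ := ENNReal.lt_iff_exists_coe.1 hS |>.imp fun S h => h.1
  obtain ⟨C₃, hC₃⟩ : ∃ C₃ : ℝ≥0, (C₂ : ℝ≥0∞) ^ (1 / p) = C₃ :=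
    ⟨C₂ ^ (1 / p), (ENNReal.coe_rpow_of_nonneg _ (by positivity)).symm⟩
  refine ⟨C₁ + C₃ * S, fun d r c Mb hc hb hK u B hB hj => ?_⟩
  set ν : Measure (ℝ × EE d) := ((volume : Measure ℝ).restrict (Icc 1 2)).prod volume with hν
  let G : EE d → ℂ := 𝓕 (u : EE d → ℂ)
  have hGm : Measurable G := measurable_F u
  have hGi : Integrable G := integrable_F u
  -- measurability
  have hcm : Measurable (fun q : ℝ × EE d => c q.1 ‖q.2‖) :=
    hc.comp (measurable_fst.prodMk (measurable_norm.comp measurable_snd))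
  have mT : Measurable (fun q : ℝ × EE d => MI (fun ξ => c q.1 ‖ξ‖) G q.2) :=
    measurable_MI (fun (t : ℝ) (ξ : EE d) => c t ‖ξ‖) hcm G hGm
  have mL : Measurable (fun q : ℝ × EE d => MI (fun ξ => eta0 ‖ξ‖ * c q.1 ‖ξ‖) G q.2) := by
    refine measurable_MI (fun (t : ℝ) (ξ : EE d) => eta0 ‖ξ‖ * c t ‖ξ‖) (Measurable.mul ?_ hcm)
      G hGm
    exact (continuous_eta0.comp (by fun_prop)).measurable
  have mH : ∀ j : ℕ, Measurable (fun q : ℝ × EE d =>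
      MI (fun ξ => c q.1 ‖ξ‖ * chi (‖ξ‖ / 2 ^ (j + 1))) G q.2) := by
    intro j
    refine measurable_MI (fun (t : ℝ) (ξ : EE d) => c t ‖ξ‖ * chi (‖ξ‖ / 2 ^ (j + 1)))
      (Measurable.mul hcm ?_) G hGm
    exact (continuous_chi.comp (by fun_prop)).measurable
  have hTT : (fun q : ℝ × EE d => TT c u q.1 q.2) =
      fun q : ℝ × EE d => MI (fun ξ => c q.1 ‖ξ‖) G q.2 := by
    funext q
    exact TT_eq c u q.1 q.2
  refine ⟨by rw [hTT]; exact mT, ?_⟩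
  have e0 : ∀ q : ℝ × EE d, TT c u q.1 q.2 = MI (fun ξ => c q.1 ‖ξ‖) G q.2 := fun q =>
    congrFun hTT q
  simp_rw [e0]
  -- pointwise bound and Minkowski
  have h1 : (∫⁻ q : ℝ × EE d, ‖MI (fun ξ => c q.1 ‖ξ‖) G q.2‖ₑ ^ p ∂ν) ^ (1 / p) ≤
      (∫⁻ q : ℝ × EE d, ‖MI (fun ξ => eta0 ‖ξ‖ * c q.1 ‖ξ‖) G q.2‖ₑ ^ p ∂ν) ^ (1 / p) +
      (∫⁻ q : ℝ × EE d, (∑' j : ℕ, ‖MI (fun ξ : EE d =>
        c q.1 ‖ξ‖ * chi (‖ξ‖ / 2 ^ (j + 1))) G q.2‖ₑ) ^ p ∂ν) ^ (1 / p) := by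
    have h2 := ENNReal.lintegral_Lp_add_le (μ := ν) (p := p)
      (f := fun q : ℝ × EE d => ‖MI (fun ξ => eta0 ‖ξ‖ * c q.1 ‖ξ‖) G q.2‖ₑ)
      (g := fun q : ℝ × EE d => ∑' j : ℕ, ‖MI (fun ξ : EE d =>
        c q.1 ‖ξ‖ * chi (‖ξ‖ / 2 ^ (j + 1))) G q.2‖ₑ)
      mL.enorm.aemeasurable (Measurable.tsum fun j => (mH j).enorm).aemeasurable hp
    refine le_trans (ENNReal.rpow_le_rpow (lintegral_mono fun q => ?_) (by positivity)) h2
    exact ENNReal.rpow_le_rpow (enorm_TT_le c Mb hc hb G hGi q.1 q.2) hp0.le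
  have h3 := mink_tsum (μ := ν) p hp (fun (j : ℕ) (q : ℝ × EE d) => ‖MI (fun ξ : EE d =>
    c q.1 ‖ξ‖ * chi (‖ξ‖ / 2 ^ (j + 1))) G q.2‖ₑ) (fun j => (mH j).enorm)
  -- low part
  have h4 : (∫⁻ q : ℝ × EE d, ‖MI (fun ξ => eta0 ‖ξ‖ * c q.1 ‖ξ‖) G q.2‖ₑ ^ p ∂ν) ^ (1 / p) ≤
      C₁ * B := by
    have h5 : ∫⁻ q : ℝ × EE d, ‖MI (fun ξ => eta0 ‖ξ‖ * c q.1 ‖ξ‖) G q.2‖ₑ ^ p ∂ν ≤
        (C₁ * B) ^ p := by
      rw [hν, lintegral_prod _ ((mL.enorm.pow_const p).aemeasurable)]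
      have h6 : ∀ t ∈ Icc (1 : ℝ) 2, ∫⁻ x : EE d,
          ‖MI (fun ξ => eta0 ‖ξ‖ * c t ‖ξ‖) G x‖ₑ ^ p ≤ (C₁ * B) ^ p := by
        intro t ht
        have hct : Measurable (fun s : ℝ => c t s) :=
          hc.comp (measurable_const.prodMk measurable_id)
        refine (low_part hPLE hYG p r hp C₁ (c t) (Mb t) hct (hb t) (hK t ht) u).trans ?_
        rw [ENNReal.mul_rpow_of_nonneg _ _ hp0.le]
        exact mul_le_mul' le_rfl hB
      calc ∫⁻ t in Icc (1 : ℝ) 2, ∫⁻ x : EE d, ‖MI (fun ξ => eta0 ‖ξ‖ * c t ‖ξ‖) G x‖ₑ ^ p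
          ≤ ∫⁻ t in Icc (1 : ℝ) 2, (C₁ * B) ^ p := by
            refine lintegral_mono_ae ?_
            filter_upwards [ae_restrict_mem measurableSet_Icc] with t ht
            exact h6 t ht
        _ = (C₁ * B) ^ p := by
            rw [lintegral_const, Measure.restrict_apply MeasurableSet.univ, univ_inter,
              Real.volume_Icc]
            norm_num
    calc (∫⁻ q : ℝ × EE d, ‖MI (fun ξ => eta0 ‖ξ‖ * c q.1 ‖ξ‖) G q.2‖ₑ ^ p ∂ν) ^ (1 / p)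
        ≤ ((C₁ * B) ^ p) ^ (1 / p) := ENNReal.rpow_le_rpow h5 (by positivity)
      _ = C₁ * B := by
          rw [← ENNReal.rpow_mul, mul_one_div_cancel hp0.ne', ENNReal.rpow_one]
  -- blocks
  have h7 : ∀ j : ℕ, (∫⁻ q : ℝ × EE d, ‖MI (fun ξ : EE d =>
      c q.1 ‖ξ‖ * chi (‖ξ‖ / 2 ^ (j + 1))) G q.2‖ₑ ^ p ∂ν) ^ (1 / p) ≤
      C₃ * ENNReal.ofReal (((2 : ℝ) ^ (j + 1)) ^ (-(δ / p))) * B := by
    intro j
    rw [hν, lintegral_prod _ (((mH j).enorm.pow_const p).aemeasurable)]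
    have h8 := ENNReal.rpow_le_rpow (hj j) (by positivity : 0 ≤ 1 / p)
    rw [lp_scale p hp0 _ _ (by positivity), hC₃, ← Real.rpow_mul (by positivity)] at h8
    rw [show -δ * (1 / p) = -(δ / p) by ring] at h8
    exact h8
  refine h1.trans ?_
  calc _ ≤ C₁ * B + ∑' j : ℕ, C₃ * ENNReal.ofReal (((2 : ℝ) ^ (j + 1)) ^ (-(δ / p))) * B :=
        add_le_add h4 (h3.trans (ENNReal.tsum_le_tsum h7))
    _ = C₁ * B + C₃ * S * B := by
        rw [ENNReal.tsum_mul_right, ENNReal.tsum_mul_left, hS']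
    _ = ((C₁ + C₃ * S : ℝ≥0) : ℝ≥0∞) * B := by
        push_cast
        ring

end Pool.Agent.H73.LS
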