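import Pool.Agent.H73.LS.Core

/-!
Local smoothing, modules FIN and FING: the theorems.
-/

set_option autoImplicit false

namespace Pool.Agent.H73.LS

open MeasureTheory Set Filter FourierTransform Pool.Agent.H83.LS
open scoped ENNReal NNReal SchwartzMap

/-- the cosine symbol -/
noncomputable def cc (t s : ℝ) : ℝ := Real.cos (2 * Real.pi * t * s)

/-- the sine symbol -/
noncomputable def ss (t s : ℝ) : ℝ := Real.sin (2 * Real.pi * t * s) / (2 * Real.pi * s)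

lemma measurable_cc : Measurable (fun q : ℝ × ℝ => cc q.1 q.2) := by
  unfold cc
  exact Real.continuous_cos.measurable.comp (by fun_prop)

lemma measurable_ss : Measurable (fun q : ℝ × ℝ => ss q.1 q.2) := by
  unfold ss
  exact (Real.continuous_sin.measurable.comp (by fun_prop)).div (by fun_prop)

lemma cc_le (t s : ℝ) : |cc t s| ≤ 1 := Real.abs_cos_le_one _

lemma ss_le (t s : ℝ) : |ss t s| ≤ |t| := by
  unfold ss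
  rw [abs_div]
  by_cases h : s = 0
  · subst h
    simp
  · have h1 : 0 < |2 * Real.pi * s| := by
      rw [abs_pos]
      have := Real.pi_ne_zero
      positivity
    rw [div_le_iff₀ h1]
    have h2 : |Real.sin (2 * Real.pi * t * s)| ≤ |2 * Real.pi * t * s| := Real.abs_sin_le_abs
    calc |Real.sin (2 * Real.pi * t * s)| ≤ |2 * Real.pi * t * s| := h2
      _ = |t| * |2 * Real.pi * s| := by rw [← abs_mul]; congr 1; ring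

section

variable {d : ℕ}

lemma eLp_pow (p : ℝ) (hp : 0 < p) (f : EE d → ℂ) :
    eLpNorm f (ENNReal.ofReal p) volume ^ p = ∫⁻ x, ‖f x‖ₑ ^ p := by
  rw [eLpNorm_eq_lintegral_rpow_enorm_toReal (by simpa using hp) ENNReal.ofReal_ne_top,
    ENNReal.toReal_ofReal hp.le, ← ENNReal.rpow_mul, one_div_mul_cancel hp.ne', ENNReal.rpow_one]

lemma two_le (p : ℝ) (hp : 1 ≤ p) (F G : ℝ × EE d → ℂ) (mF : Measurable F) (mG : Measurable G) :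
    (∫⁻ t in Icc (1 : ℝ) 2, eLpNorm (fun x => F (t, x) + G (t, x)) (ENNReal.ofReal p)
      volume ^ p) ^ (1 / p) ≤
    (∫⁻ q : ℝ × EE d, ‖F q‖ₑ ^ p
      ∂(((volume : Measure ℝ).restrict (Icc 1 2)).prod volume)) ^ (1 / p) +
    (∫⁻ q : ℝ × EE d, ‖G q‖ₑ ^ p
      ∂(((volume : Measure ℝ).restrict (Icc 1 2)).prod volume)) ^ (1 / p) := by
  have hp0 : 0 < p := lt_of_lt_of_le one_pos hp
  simp_rw [eLp_pow p hp0]
  have h1 : ∫⁻ t in Icc (1 : ℝ) 2, ∫⁻ x : EE d, ‖F (t, x) + G (t, x)‖ₑ ^ p =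
      ∫⁻ q : ℝ × EE d, ‖F q + G q‖ₑ ^ p
        ∂(((volume : Measure ℝ).restrict (Icc 1 2)).prod volume) := by
    rw [lintegral_prod (fun q : ℝ × EE d => ‖F q + G q‖ₑ ^ p)
      (((mF.add mG).enorm.pow_const p).aemeasurable)]
  rw [h1]
  refine le_trans (ENNReal.rpow_le_rpow (lintegral_mono fun q => ?_) (by positivity))
    (ENNReal.lintegral_Lp_add_le (p := p) (f := fun q => ‖F q‖ₑ) (g := fun q => ‖G q‖ₑ)
      mF.enorm.aemeasurable mG.enorm.aemeasurable hp)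
  exact ENNReal.rpow_le_rpow (enorm_add_le _ _) hp0.le

end

/-- the two solution operators -/
theorem both (hLOWF : T_LOWF) (hPLE : T_PLE) (hYG : T_YG) (d : ℕ) (hd : 2 ≤ d)
    (p δ r₀ r₁ : ℝ) (hp : 1 ≤ p) (hδ : 0 < δ) (C₂ : ℝ≥0) :
    ∃ C : ℝ≥0, ∀ (u₀ u₁ : 𝓢(EE d, ℂ)) (B₀ B₁ : ℝ≥0∞), ∫⁻ x, ‖besS r₀ u₀ x‖ₑ ^ p ≤ B₀ ^ p →
    ∫⁻ x, ‖besS r₁ u₁ x‖ₑ ^ p ≤ B₁ ^ p →
    (∀ lam : ℝ, 1 ≤ lam → ∫⁻ t in Icc (1 : ℝ) 2, ∫⁻ x, ‖MM (fun ξ =>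
      ((Real.cos (2 * Real.pi * t * ‖ξ‖) * chi (‖ξ‖ / lam) : ℝ) : ℂ)) u₀ x‖ₑ ^ p ≤
      C₂ * ENNReal.ofReal (lam ^ (-δ)) * B₀ ^ p) →
    (∀ lam : ℝ, 1 ≤ lam → ∫⁻ t in Icc (1 : ℝ) 2, ∫⁻ x, ‖MM (fun ξ =>
      ((Real.sin (2 * Real.pi * t * ‖ξ‖) / (2 * Real.pi * ‖ξ‖) * chi (‖ξ‖ / lam) : ℝ) : ℂ))
        u₁ x‖ₑ ^ p ≤
      C₂ * ENNReal.ofReal (lam ^ (-δ)) * B₁ ^ p) →
    (∫⁻ t in Icc (1 : ℝ) 2, eLpNorm (fun x => cosS u₀ t x + sinS u₁ t x) (ENNReal.ofReal p)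
      volume ^ p) ^ (1 / p) ≤ (C : ℝ≥0∞) * (B₀ + B₁) := by
  obtain ⟨K₀, hK₀⟩ := hLOWF d r₀ hd
  obtain ⟨K₁, hK₁⟩ := hLOWF d r₁ hd
  obtain ⟨A₀, hA₀⟩ := core hPLE hYG p δ hp hδ K₀ C₂
  obtain ⟨A₁, hA₁⟩ := core hPLE hYG p δ hp hδ K₁ C₂
  refine ⟨A₀ + A₁, fun u₀ u₁ B₀ B₁ hB₀ hB₁ h₀ h₁ => ?_⟩
  have hp2 : ∀ j : ℕ, (1 : ℝ) ≤ 2 ^ (j + 1) := fun j => one_le_pow₀ one_le_two
  obtain ⟨m₀, b₀⟩ := hA₀ d r₀ cc (fun _ => 1) measurable_cc cc_le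
    (fun t ht => (hK₀ t ⟨by linarith [ht.1], ht.2⟩).1) u₀ B₀ hB₀ (fun j => h₀ _ (hp2 j))
  obtain ⟨m₁, b₁⟩ := hA₁ d r₁ ss (fun t => |t|) measurable_ss ss_le
    (fun t ht => (hK₁ t ⟨by linarith [ht.1], ht.2⟩).2) u₁ B₁ hB₁ (fun j => h₁ _ (hp2 j))
  have h2 := two_le p hp (fun q : ℝ × EE d => TT cc u₀ q.1 q.2)
    (fun q : ℝ × EE d => TT ss u₁ q.1 q.2) m₀ m₁
  refine h2.trans ?_
  calc _ ≤ (A₀ : ℝ≥0∞) * B₀ + A₁ * B₁ := add_le_add b₀ b₁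
    _ ≤ (A₀ + A₁ : ℝ≥0∞) * (B₀ + B₁) := by
        rw [add_mul, mul_add, mul_add]
        exact add_le_add le_self_add le_add_self
    _ = _ := by push_cast; ring

/-- the blocks for all Schwartz functions give the theorem -/
theorem fing_aux (hLOWF : T_LOWF) (hYG : T_YG) (hPLE : T_PLE) (n N₀ N₁ : ℕ) (p σ : ℝ)
    (hn : 2 ≤ n) (hp : 2 + 2 / (n : ℝ) ≤ p) (hσ : σ < 1 / p) (C₀ C₁ : ℝ≥0)
    (h₀ : ∀ (lam : ℝ) (u : 𝓢(EE (n + 1), ℂ)) (B : ℝ≥0∞), 1 ≤ lam →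
      (∀ w : List (Fin n × Fin n), w.length ≤ N₀ →
        ∫⁻ x, ‖besS ((n : ℝ) / 2 - n / p - σ) (rotW w u) x‖ₑ ^ p ≤ B) →
      ∫⁻ t in Icc (1 : ℝ) 2, ∫⁻ x, ‖MM (fun ξ => ((Real.cos (2 * Real.pi * t * ‖ξ‖) *
        chi (‖ξ‖ / lam) : ℝ) : ℂ)) u x‖ₑ ^ p ≤
      C₀ * ENNReal.ofReal (lam ^ ((n : ℝ) * (p / 2 - 1) - 1 - p * ((n : ℝ) / 2 - n / p - σ) +
        (1 - p * σ) / 2)) * B)
    (h₁ : ∀ (lam : ℝ) (u : 𝓢(EE (n + 1), ℂ)) (B : ℝ≥0∞), 1 ≤ lam →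
      (∀ w : List (Fin n × Fin n), w.length ≤ N₁ →
        ∫⁻ x, ‖besS ((n : ℝ) / 2 - n / p - 1 - σ) (rotW w u) x‖ₑ ^ p ≤ B) →
      ∫⁻ t in Icc (1 : ℝ) 2, ∫⁻ x, ‖MM (fun ξ => ((Real.sin (2 * Real.pi * t * ‖ξ‖) /
        (2 * Real.pi * ‖ξ‖) * chi (‖ξ‖ / lam) : ℝ) : ℂ)) u x‖ₑ ^ p ≤
      C₁ * ENNReal.ofReal (lam ^ ((n : ℝ) * (p / 2 - 1) - 1 -
        p * ((n : ℝ) / 2 - n / p - 1 - σ + 1) + (1 - p * σ) / 2)) * B) :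
    ∃ C : ℝ≥0, ∀ (u₀ u₁ : 𝓢(EE (n + 1), ℂ)) (B : ℝ≥0∞),
    (∀ w : List (Fin n × Fin n), w.length ≤ max N₀ N₁ →
      eLpNorm (besS ((n : ℝ) / 2 - n / p - σ) (rotW w u₀)) (ENNReal.ofReal p) volume +
      eLpNorm (besS ((n : ℝ) / 2 - n / p - 1 - σ) (rotW w u₁)) (ENNReal.ofReal p) volume ≤ B) →
    (∫⁻ t in Icc (1 : ℝ) 2, eLpNorm (fun x => cosS u₀ t x + sinS u₁ t x) (ENNReal.ofReal p)
      volume ^ p) ^ (1 / p) ≤ (C : ℝ≥0∞) * B := by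
  have hn0 : (0 : ℝ) < n := by positivity
  have hp1 : 1 ≤ p := by
    have : (0 : ℝ) < 2 / n := by positivity
    linarith
  have hp0 : 0 < p := lt_of_lt_of_le one_pos hp1
  have hδ : 0 < (1 - p * σ) / 2 := by
    have h1 : p * σ < 1 := by
      rw [lt_div_iff₀ hp0] at hσ
      linarith
    linarith
  obtain ⟨C, hC⟩ := both hLOWF hPLE hYG (n + 1) (by omega) p ((1 - p * σ) / 2)
    ((n : ℝ) / 2 - n / p - σ) ((n : ℝ) / 2 - n / p - 1 - σ) hp1 hδ (C₀ + C₁)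
  refine ⟨2 * C, fun u₀ u₁ B hB => ?_⟩
  have e₀ : (n : ℝ) * (p / 2 - 1) - 1 - p * ((n : ℝ) / 2 - n / p - σ) + (1 - p * σ) / 2 =
      -((1 - p * σ) / 2) := by
    field_simp
    ring
  have e₁ : (n : ℝ) * (p / 2 - 1) - 1 - p * ((n : ℝ) / 2 - n / p - 1 - σ + 1) +
      (1 - p * σ) / 2 = -((1 - p * σ) / 2) := by
    field_simp
    ring
  have g₀ : ∀ w : List (Fin n × Fin n), w.length ≤ max N₀ N₁ →
      ∫⁻ x, ‖besS ((n : ℝ) / 2 - n / p - σ) (rotW w u₀) x‖ₑ ^ p ≤ B ^ p := by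
    intro w hw
    rw [← eLp_pow p hp0]
    exact ENNReal.rpow_le_rpow (le_self_add.trans (hB w hw)) hp0.le
  have g₁ : ∀ w : List (Fin n × Fin n), w.length ≤ max N₀ N₁ →
      ∫⁻ x, ‖besS ((n : ℝ) / 2 - n / p - 1 - σ) (rotW w u₁) x‖ₑ ^ p ≤ B ^ p := by
    intro w hw
    rw [← eLp_pow p hp0]
    exact ENNReal.rpow_le_rpow (le_add_self.trans (hB w hw)) hp0.le
  refine (hC u₀ u₁ B B (g₀ [] (Nat.zero_le _)) (g₁ [] (Nat.zero_le _)) (fun lam hlam => ?_)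
    (fun lam hlam => ?_)).trans ?_
  · have h2 := h₀ lam u₀ (B ^ p) hlam fun w hw => g₀ w (hw.trans (le_max_left _ _))
    rw [e₀] at h2
    refine h2.trans ?_
    gcongr
    exact_mod_cast le_self_add
  · have h2 := h₁ lam u₁ (B ^ p) hlam fun w hw => g₁ w (hw.trans (le_max_right _ _))
    rw [e₁] at h2
    refine h2.trans ?_
    gcongr
    exact_mod_cast le_add_self
  · push_cast
    rw [← two_mul]
    apply le_of_eq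
    ring

lemma delta_pos (n : ℕ) (p σ : ℝ) (hn : 2 ≤ n) (hp : 2 + 2 / (n : ℝ) ≤ p) (hσ : σ < 1 / p) :
    0 < (1 - p * σ) / 2 := by
  have hn0 : (0 : ℝ) < n := by positivity
  have hp0 : 0 < p := by
    have : (0 : ℝ) < 2 / n := by positivity
    linarith
  have h1 : p * σ < 1 := by
    rw [lt_div_iff₀ hp0] at hσ
    linarith
  linarith

/-- FING -/
theorem fing (hHIGHG : T_HIGHG) (hLOWF : T_LOWF) (hYG : T_YG) (hPLE : T_PLE) : T_FING := by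
  intro n p σ hn hp hσ
  have hδ := delta_pos n p σ hn hp hσ
  obtain ⟨N₀, C₀, h₀⟩ := hHIGHG n p ((n : ℝ) / 2 - n / p - σ) ((1 - p * σ) / 2) hn hp hδ
  obtain ⟨N₁, C₁, h₁⟩ := hHIGHG n p ((n : ℝ) / 2 - n / p - 1 - σ) ((1 - p * σ) / 2) hn hp hδ
  obtain ⟨C, hC⟩ := fing_aux hLOWF hYG hPLE n N₀ N₁ p σ hn hp hσ C₀ C₁
    (fun lam u B hlam hw => (h₀ lam u B hlam hw).1) (fun lam u B hlam hw => (h₁ lam u B hlam hw).2)
  exact ⟨max N₀ N₁, C, hC⟩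

/-- FINGe: explicit number of angular derivatives -/
theorem finge (hHIGHGe : T_HIGHGe) (hLOWF : T_LOWF) (hYG : T_YG) (hPLE : T_PLE) : T_FINGe := by
  intro n p σ hn hp hσ
  have hδ := delta_pos n p σ hn hp hσ
  obtain ⟨C₀, h₀⟩ := hHIGHGe n p ((n : ℝ) / 2 - n / p - σ) ((1 - p * σ) / 2) hn hp hδ
  obtain ⟨C₁, h₁⟩ := hHIGHGe n p ((n : ℝ) / 2 - n / p - 1 - σ) ((1 - p * σ) / 2) hn hp hδ
  obtain ⟨C, hC⟩ := fing_aux hLOWF hYG hPLE n (3 * n + 5) (3 * n + 5) p σ hn hp hσ C₀ C₁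
    (fun lam u B hlam hw => (h₀ lam u B hlam hw).1) (fun lam u B hlam hw => (h₁ lam u B hlam hw).2)
  rw [max_self] at hC
  exact ⟨C, hC⟩

/-- FIN -/
theorem fin (hHIGHF : T_HIGHF) (hLOWF : T_LOWF) (hYG : T_YG) (hPLE : T_PLE) : T_FIN := by
  intro n p σ hn hp hσ
  have hn0 : (0 : ℝ) < n := by positivity
  have hp1 : 1 ≤ p := by
    have : (0 : ℝ) < 2 / n := by positivity
    linarith
  have hp0 : 0 < p := lt_of_lt_of_le one_pos hp1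
  have hδ := delta_pos n p σ hn hp hσ
  obtain ⟨C₀, h₀⟩ := hHIGHF n p ((n : ℝ) / 2 - n / p - σ) ((1 - p * σ) / 2) hn hp hδ
  obtain ⟨C₁, h₁⟩ := hHIGHF n p ((n : ℝ) / 2 - n / p - 1 - σ) ((1 - p * σ) / 2) hn hp hδ
  obtain ⟨C, hC⟩ := both hLOWF hPLE hYG (n + 1) (by omega) p ((1 - p * σ) / 2)
    ((n : ℝ) / 2 - n / p - σ) ((n : ℝ) / 2 - n / p - 1 - σ) hp1 hδ (C₀ + C₁)
  refine ⟨C, fun u₀ u₁ ax₀ ax₁ => ?_⟩
  have e₀ : (n : ℝ) * (p / 2 - 1) - 1 - p * ((n : ℝ) / 2 - n / p - σ) + (1 - p * σ) / 2 =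
      -((1 - p * σ) / 2) := by
    field_simp
    ring
  have e₁ : (n : ℝ) * (p / 2 - 1) - 1 - p * ((n : ℝ) / 2 - n / p - 1 - σ + 1) +
      (1 - p * σ) / 2 = -((1 - p * σ) / 2) := by
    field_simp
    ring
  refine hC u₀ u₁ _ _ (eLp_pow p hp0 _).ge (eLp_pow p hp0 _).ge (fun lam hlam => ?_)
    (fun lam hlam => ?_)
  · have h2 := (h₀ lam u₀ hlam ax₀).1
    rw [e₀, ← eLp_pow p hp0] at h2
    refine h2.trans ?_
    gcongr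
    exact_mod_cast le_self_add
  · have h2 := (h₁ lam u₁ hlam ax₁).2
    rw [e₁, ← eLp_pow p hp0] at h2
    refine h2.trans ?_
    gcongr
    exact_mod_cast le_add_self

end Pool.Agent.H73.LS
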